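import Pool.Agent.Helper76.T3.StU
import Pool.Agent.Helper10.W3.M_Trq

/-!
# Project T3, module DimFS3: the dimension of `antiF3S k η ε` by fixed points
-/

set_option autoImplicit false

namespace Pool.Agent.Helper67.T3

open Pool.Agent.Helper76.T3 Pool.Agent.Helper14.T3 Pool.Agent.Helper14.W3 Pool.Agent.Helper78.W3
open Pool.Agent.Helper76.TX (Sg)

/-- the number of fixed points -/
private def fx {Z : Type} [Fintype Z] [DecidableEq Z] (f : Z → Z) : ℕ :=
  (Finset.univ.filter fun x : Z => f x = x).card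

private lemma card_ns {Z : Type} [Fintype Z] [DecidableEq Z] (f g : Z → Z) :
    (Finset.univ.filter fun p : Z × Z => (f p.1, g p.2) = p).card = fx f * fx g := by
  unfold fx
  rw [← Finset.card_product]
  congr 1
  ext ⟨x, y⟩
  simp only [Finset.mem_filter, Finset.mem_univ, true_and, Finset.mem_product, Prod.mk.injEq]

private lemma card_sw {Z : Type} [Fintype Z] [DecidableEq Z] (f g : Z → Z) :
    (Finset.univ.filter fun p : Z × Z => (f p.2, g p.1) = p).card = fx (fun y => g (f y)) := by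
  unfold fx
  have h1 : (Finset.univ.filter fun p : Z × Z => (f p.2, g p.1) = p) =
      (Finset.univ.filter fun y : Z => g (f y) = y).image fun y => (f y, y) := by
    ext ⟨x, y⟩
    simp only [Finset.mem_filter, Finset.mem_univ, true_and, Finset.mem_image, Prod.mk.injEq]
    constructor
    · rintro ⟨h1, h2⟩
      exact ⟨y, by rw [h1]; exact h2, h1, rfl⟩
    · rintro ⟨z, hz, h1, rfl⟩
      exact ⟨h1, by rw [← h1]; exact hz⟩
  rw [h1, Finset.card_image_of_injective]
  intro y y' h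
  exact (Prod.mk.inj h).2

private lemma fx_id {Z : Type} [Fintype Z] [DecidableEq Z] (f : Z → Z) (h : ∀ x, f x = x) :
    fx f = Fintype.card Z := by
  unfold fx
  rw [Finset.filter_true_of_mem fun x _ => h x, Finset.card_univ]

private lemma fx_none {Z : Type} [Fintype Z] [DecidableEq Z] (f : Z → Z) (h : ∀ x, f x ≠ x) :
    fx f = 0 := by
  unfold fx
  rw [Finset.card_eq_zero, Finset.filter_eq_empty_iff]
  intro x _
  exact h x

private lemma fx_shift {Z : Type} [AddCommGroup Z] [Fintype Z] [DecidableEq Z] (t u : Z)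
    (htu : t + u = 0) (htt : t + t = u) (huu : u + u = t) (n : Z → Z)
    (h1 : ∀ x, n (x + t) = n x + u) (h2 : ∀ x, n (x + u) = n x + t) :
    fx (fun x => n x + t) = fx n := by
  unfold fx
  have h3 : (Finset.univ.filter fun x : Z => n x + t = x) =
      (Finset.univ.filter fun x : Z => n x = x).image fun x => x + u := by
    ext y
    simp only [Finset.mem_filter, Finset.mem_univ, true_and, Finset.mem_image]
    constructor
    · intro h
      refine ⟨y + t, ?_, by rw [add_assoc, htu, add_zero]⟩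
      rw [h1]
      have h4 : n y = y + u := by
        have h5 : n y + t + u = y + u := by rw [h]
        rw [add_assoc, htu, add_zero] at h5
        exact h5
      rw [h4, add_assoc, huu]
    · rintro ⟨x, hx, rfl⟩
      rw [h2, hx, add_assoc, htt]
  rw [h3, Finset.card_image_of_injective]
  exact add_left_injective u

/-- the translations -/
private def tr {Z : Type} [AddCommGroup Z] (t u : Z) : Fin 3 → Z := ![0, t, u]

/-- the weights of the translations -/
private noncomputable def wt : Fin 3 → ℂ := ![2 / 3, -1 / 3, -1 / 3]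

/-- the six signs -/
private noncomputable def sg (ε : ℂ) : Fin 6 → ℂ := ![1, 1, 1, -ε, -ε, -ε]

/-- the sign of the swap -/
private noncomputable def sw (η : ℂ) : Bool → ℂ
  | true => η
  | false => 1

/-- the substitutions -/
private def sb {Z : Type} [AddCommGroup Z] (t u : Z) (al als : Fin 6 → Z → Z)
    (h : Bool × Fin 6 × Fin 3 × Fin 3) (p : Z × Z) : Z × Z :=
  match h with
  | (false, a, i, j) => (al a p.1 + tr t u i, als a p.2 + tr t u j)
  | (true, a, i, j) => (al a p.2 + tr t u i, als a p.1 + tr t u j)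

/-- the double average -/
private noncomputable def Av {Z : Type} [AddCommGroup Z] (t u : Z) (F : Z → Z → ℂ) (x y : Z) : ℂ :=
  ∑ i : Fin 3, ∑ j : Fin 3, wt i * wt j * F (x + tr t u i) (y + tr t u j)

private lemma av_eq {Z : Type} [AddCommGroup Z] (t u : Z) (F : Z → Z → ℂ) (x y : Z) :
    Av t u F x y = 2 / 3 * (2 / 3 * F x y + -1 / 3 * F x (y + t) + -1 / 3 * F x (y + u)) +
  -1 / 3 * (2 / 3 * F (x + t) y + -1 / 3 * F (x + t) (y + t) + -1 / 3 * F (x + t) (y + u)) +
  -1 / 3 * (2 / 3 * F (x + u) y + -1 / 3 * F (x + u) (y + t) + -1 / 3 * F (x + u) (y + u)) := by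
  simp only [Av, Fin.sum_univ_three, wt, tr, Matrix.cons_val_zero, Matrix.cons_val_one,
    Matrix.cons_val, add_zero]
  ring

private lemma dim_aux {Z : Type} [AddCommGroup Z] [Fintype Z] [DecidableEq Z] (η ε : ℂ)
    (hη : η ^ 2 = 1) (hε : ε ^ 2 = 1) (t u : Z)
    (htu : t + u = 0) (htt : t + t = u) (huu : u + u = t) (ht0 : t ≠ 0) (hu0 : u ≠ 0)
    (r s n1 n2 n3 : Z → Z)
    (R1 : ∀ x, s (r x) = x) (R2 : ∀ x, r (s x) = x) (R3 : ∀ x, r (r x) = s x)
    (R4 : ∀ x, n1 (n1 x) = x) (R5 : ∀ x, n1 (r x) = n2 x) (R6 : ∀ x, n2 (r x) = n3 x)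
    (R7 : ∀ x, r (n1 x) = n3 x)
    (T1 : ∀ x, r (x + t) = r x + t) (T2 : ∀ x, n1 (x + t) = n1 x + u)
    (N0 : ∀ x, r x ≠ x) (N1 : ∀ x, r x + t ≠ x) (N2 : ∀ x, r x + u ≠ x)
    (hTrq : S3Trq) (V : Submodule ℂ (Z → Z → ℂ))
    (hV : ∀ F, F ∈ V ↔ ∀ x y, F x y + F (x + t) y + F (x + u) y = 0 ∧
      F x y + F x (y + t) + F x (y + u) = 0 ∧ F y x = η * F x y ∧ F (r x) (s y) = F x y ∧
      F (n1 x) (n2 y) = -(ε * F x y)) :
    (54 : ℂ) * Module.finrank ℂ V =
      2 * (Fintype.card Z : ℂ) ^ 2 + 3 * (η * (3 - ε)) * Fintype.card Z := by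
  -- the table
  have hut : u + t = 0 := by rw [add_comm]; exact htu
  have R8 : ∀ x, s (s x) = r x := fun x => by
    have h := R1 (r x)
    rw [R3] at h
    exact h
  have R9 : ∀ x, n1 (s x) = n3 x := fun x => by rw [← R3, R5, R6]
  have R10 : ∀ x, n2 (s x) = n1 x := fun x => by rw [← R5, R2]
  have R11 : ∀ x, n3 (s x) = n2 x := fun x => by rw [← R6, R2]
  have R12 : ∀ x, n3 (r x) = n1 x := fun x => by rw [← R6, R3, R10]
  have R13 : ∀ x, s (n1 x) = n2 x := fun x => by rw [← R3, R7, ← R9, R7, R11]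
  have R14 : ∀ x, n2 (n1 x) = s x := fun x => by rw [← R5, R7, ← R9, R4]
  have R15 : ∀ x, n1 (n2 x) = r x := fun x => by rw [← R5, R4]
  have R16 : ∀ x, r (n3 x) = n2 x := fun x => by rw [← R9, R7, R11]
  have R17 : ∀ x, n3 (n1 x) = r x := fun x => by rw [← R6, R7, ← R5, R16, R15]
  have R18 : ∀ x, r (n2 x) = n1 x := fun x => by rw [← R5, R7, R12]
  have R19 : ∀ x, s (n2 x) = n3 x := fun x => by rw [← R5, R13, R6]
  have R20 : ∀ x, n2 (n2 x) = x := fun x => by rw [← R5 x, R14, R1]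
  have R21 : ∀ x, n3 (n2 x) = s x := fun x => by rw [← R5, R17, R3]
  have R22 : ∀ x, n3 (n3 x) = x := fun x => by rw [← R6 x, R21, R1]
  -- translations
  have e1 : ∀ x : Z, x + t + t = x + u := fun x => by rw [add_assoc, htt]
  have e2 : ∀ x : Z, x + t + u = x := fun x => by rw [add_assoc, htu, add_zero]
  have e3 : ∀ x : Z, x + u + t = x := fun x => by rw [add_assoc, hut, add_zero]
  have e4 : ∀ x : Z, x + u + u = x + t := fun x => by rw [add_assoc, huu]
  have T1u : ∀ x, r (x + u) = r x + u := fun x => by rw [← e1, T1, T1, e1]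
  have T2u : ∀ x, n1 (x + u) = n1 x + t := fun x => by rw [← e1, T2, T2, e4]
  have T3 : ∀ x, s (x + t) = s x + t := fun x => by rw [← R3, T1, T1, R3]
  have T3u : ∀ x, s (x + u) = s x + u := fun x => by rw [← R3, T1u, T1u, R3]
  have T4 : ∀ x, n2 (x + t) = n2 x + u := fun x => by rw [← R5, T1, T2, R5]
  have T4u : ∀ x, n2 (x + u) = n2 x + t := fun x => by rw [← R5, T1u, T2u, R5]
  have T5 : ∀ x, n3 (x + t) = n3 x + u := fun x => by rw [← R6, T1, T4, R6]
  have T5u : ∀ x, n3 (x + u) = n3 x + t := fun x => by rw [← R6, T1u, T4u, R6]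
  have M0 : ∀ x, s x ≠ x := fun x h => N0 x (by rw [← R8, h, h])
  have M1 : ∀ x, s x + t ≠ x := fun x h => by
    have h1 : r (s x + t) = r x := by rw [h]
    rw [T1, R2] at h1
    apply N2 x
    rw [← h1, e2]
  have M2 : ∀ x, s x + u ≠ x := fun x h => by
    have h1 : r (s x + u) = r x := by rw [h]
    rw [T1u, R2] at h1
    apply N1 x
    rw [← h1, e3]
  -- the space of functions on pairs
  let W : Submodule ℂ (Z × Z → ℂ) := V.comap (LinearEquiv.curry ℂ ℂ Z Z : _ →ₗ[ℂ] _)
  have hW : ∀ F : Z × Z → ℂ, F ∈ W ↔ ∀ x y, F (x, y) + F (x + t, y) + F (x + u, y) = 0 ∧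
      F (x, y) + F (x, y + t) + F (x, y + u) = 0 ∧ F (y, x) = η * F (x, y) ∧
      F (r x, s y) = F (x, y) ∧ F (n1 x, n2 y) = -(ε * F (x, y)) := by
    intro F
    change (LinearEquiv.curry ℂ ℂ Z Z F) ∈ V ↔ _
    rw [hV]
    rfl
  have hfr : Module.finrank ℂ W = Module.finrank ℂ V := by
    have h1 : V = W.map (LinearEquiv.curry ℂ ℂ Z Z : _ →ₗ[ℂ] _) := by
      rw [Submodule.map_comap_eq_of_surjective (LinearEquiv.surjective _)]
    conv_rhs => rw [h1]
    exact (LinearEquiv.finrank_map_eq _ _).symm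
  set al : Fin 6 → Z → Z := ![fun x => x, r, s, n1, n2, n3] with hal
  set als : Fin 6 → Z → Z := ![fun x => x, s, r, n2, n1, n3] with hals
  have hsum : ∀ f : Bool × Fin 6 × Fin 3 × Fin 3 → ℂ, ∑ h, f h =
      (∑ a, ∑ i, ∑ j, f (true, a, i, j)) + (∑ a, ∑ i, ∑ j, f (false, a, i, j)) := by
    intro f
    simp only [Fintype.sum_prod_type, Fintype.sum_bool]
  -- the projection as a sum over the group
  have hP : ∀ (F : Z × Z → ℂ) (x y : Z), ∑ h : Bool × Fin 6 × Fin 3 × Fin 3,
      (1 / 12 * (sw η h.1 * (sg ε h.2.1 * (wt h.2.2.1 * wt h.2.2.2)))) *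
        F (sb t u al als h (x, y)) =
      1 / 12 * (∑ a, η * (sg ε a * Av t u (fun x y => F (x, y)) (al a y) (als a x)) +
        ∑ a, sg ε a * Av t u (fun x y => F (x, y)) (al a x) (als a y)) := by
    intro F x y
    rw [hsum]
    simp only [Av, sb, sw, Finset.mul_sum, mul_add]
    congr 1 <;>
    · refine Finset.sum_congr rfl fun a _ => Finset.sum_congr rfl fun i _ =>
        Finset.sum_congr rfl fun j _ => ?_
      ring
  have key := hTrq (Z × Z) inferInstance inferInstance (Bool × Fin 6 × Fin 3 × Fin 3) inferInstance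
    (sb t u al als) (fun h => 1 / 12 * (sw η h.1 * (sg ε h.2.1 * (wt h.2.2.1 * wt h.2.2.2)))) W ?_ ?_
  · -- the trace
    rw [hfr, hsum] at key
    have k1 : ∀ a i j, (Finset.univ.filter fun p : Z × Z => sb t u al als (false, a, i, j) p = p).card
        = fx (fun x => al a x + tr t u i) * fx (fun x => als a x + tr t u j) := by
      intro a i j
      exact card_ns (fun x => al a x + tr t u i) (fun x => als a x + tr t u j)
    have k2 : ∀ a i j, (Finset.univ.filter fun p : Z × Z => sb t u al als (true, a, i, j) p = p).card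
        = fx (fun x => als a (al a x + tr t u i) + tr t u j) := by
      intro a i j
      exact card_sw (fun x => al a x + tr t u i) (fun x => als a x + tr t u j)
    have s1 : ∀ n : Z → Z, (∀ x, n (x + t) = n x + u) → (∀ x, n (x + u) = n x + t) →
        fx (fun x => n x + t) = fx (fun x => n x) ∧ fx (fun x => n x + u) = fx (fun x => n x) :=
      fun n h1 h2 => ⟨fx_shift t u htu htt huu n h1 h2, fx_shift u t hut huu htt n h2 h1⟩
    obtain ⟨a1, a2⟩ := s1 n1 T2 T2u
    obtain ⟨a3, a4⟩ := s1 n2 T4 T4u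
    obtain ⟨a5, a6⟩ := s1 n3 T5 T5u
    have b0 : fx (fun x : Z => x) = Fintype.card Z := fx_id _ fun _ => rfl
    have b1 : fx (fun x : Z => x + t) = 0 := fx_none _ fun x h => ht0 (by simpa using h)
    have b2 : fx (fun x : Z => x + u) = 0 := fx_none _ fun x h => hu0 (by simpa using h)
    have b3 : fx (fun x : Z => r x) = 0 := fx_none _ N0
    have b4 : fx (fun x : Z => r x + t) = 0 := fx_none _ N1
    have b5 : fx (fun x : Z => r x + u) = 0 := fx_none _ N2
    have b6 : fx (fun x : Z => s x) = 0 := fx_none _ M0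
    have b7 : fx (fun x : Z => s x + t) = 0 := fx_none _ M1
    have b8 : fx (fun x : Z => s x + u) = 0 := fx_none _ M2
    simp only [k1, k2] at key
    simp only [Fin.sum_univ_six, Fin.sum_univ_three, hal, hals, sg, sw, wt, tr, Matrix.cons_val_zero,
      Matrix.cons_val_one, Matrix.cons_val, add_zero, T1, T1u, T2, T2u, T3, T3u, T4, T4u, T5, T5u,
      R1, R2, R14, R15, R22, e1, e2, e3, e4] at key
    simp only [a1, a2, a3, a4, a5, a6, b0, b1, b2, b3, b4, b5, b6, b7, b8, Nat.cast_zero,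
      mul_zero, zero_mul, Nat.cast_mul, add_zero, zero_add] at key
    rw [key]
    ring
  · -- the image
    intro F
    rw [hW]
    set A : Z → Z → ℂ := Av t u (fun x y => F (x, y)) with hA
    have ax : ∀ x y, A x y + A (x + t) y + A (x + u) y = 0 := by
      intro x y
      simp only [hA, av_eq, e1, e2, e3, e4]
      ring
    have ay : ∀ x y, A x y + A x (y + t) + A x (y + u) = 0 := by
      intro x y
      simp only [hA, av_eq, e1, e2, e3, e4]
      ring
    have hH : ∀ x y, ∑ h : Bool × Fin 6 × Fin 3 × Fin 3,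
        (1 / 12 * (sw η h.1 * (sg ε h.2.1 * (wt h.2.2.1 * wt h.2.2.2)))) *
          F (sb t u al als h (x, y)) =
        1 / 12 * (η * (A y x + A (r y) (s x) + A (s y) (r x) - ε * (A (n1 y) (n2 x) +
          A (n2 y) (n1 x) + A (n3 y) (n3 x))) + (A x y + A (r x) (s y) + A (s x) (r y) -
          ε * (A (n1 x) (n2 y) + A (n2 x) (n1 y) + A (n3 x) (n3 y)))) := by
      intro x y
      rw [hP]
      simp only [Fin.sum_univ_six, hal, hals, sg, Matrix.cons_val_zero,
        Matrix.cons_val_one, Matrix.cons_val]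
      ring
    intro x y
    simp only [hH]
    refine ⟨?_, ?_, ?_, ?_, ?_⟩
    · simp only [T1, T1u, T2, T2u, T3, T3u, T4, T4u, T5, T5u]
      linear_combination (1 / 12 : ℂ) * (η * (ay y x + ay (r y) (s x) + ay (s y) (r x)
        - ε * (ay (n1 y) (n2 x) + ay (n2 y) (n1 x) + ay (n3 y) (n3 x))) + ax x y + ax (r x) (s y)
        + ax (s x) (r y) - ε * (ax (n1 x) (n2 y) + ax (n2 x) (n1 y) + ax (n3 x) (n3 y)))
    · simp only [T1, T1u, T2, T2u, T3, T3u, T4, T4u, T5, T5u]
      linear_combination (1 / 12 : ℂ) * (η * (ax y x + ax (r y) (s x) + ax (s y) (r x)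
        - ε * (ax (n1 y) (n2 x) + ax (n2 y) (n1 x) + ax (n3 y) (n3 x))) + ay x y + ay (r x) (s y)
        + ay (s x) (r y) - ε * (ay (n1 x) (n2 y) + ay (n2 x) (n1 y) + ay (n3 x) (n3 y)))
    · linear_combination (-1 / 12 : ℂ) * (A y x + A (r y) (s x) + A (s y) (r x) -
        ε * (A (n1 y) (n2 x) + A (n2 y) (n1 x) + A (n3 y) (n3 x))) * hη
    · simp only [R1, R2, R3, R5, R6, R8, R9, R10, R11, R12]
      ring
    · simp only [R4, R7, R13, R14, R15, R17, R18, R19, R20, R21]
      linear_combination (-1 / 12 : ℂ) * (η * (A (n1 y) (n2 x) + A (n2 y) (n1 x) +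
        A (n3 y) (n3 x)) + (A (n1 x) (n2 y) + A (n2 x) (n1 y) + A (n3 x) (n3 y))) * hε
  · -- the identity on `W`
    intro F hF p
    obtain ⟨x, y⟩ := p
    rw [hW] at hF
    have hAv : ∀ x y, Av t u (fun x y => F (x, y)) x y = F (x, y) := by
      intro x y
      rw [av_eq]
      linear_combination (-2 / 9 : ℂ) * (hF x y).1 + (1 / 9 : ℂ) * (hF x (y + t)).1
        + (1 / 9 : ℂ) * (hF x (y + u)).1 + (-1 / 3 : ℂ) * (hF x y).2.1
    have c1 : ∀ x y, F (r x, s y) = F (x, y) := fun x y => (hF x y).2.2.2.1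
    have c2 : ∀ x y, F (s x, r y) = F (x, y) := fun x y => by
      have h := c1 (s x) (r y)
      rw [R2, R1] at h
      exact h.symm
    have c3 : ∀ x y, F (n1 x, n2 y) = -(ε * F (x, y)) := fun x y => (hF x y).2.2.2.2
    have c0 : ∀ x y, F (y, x) = η * F (x, y) := fun x y => (hF x y).2.2.1
    have c4 : ∀ x y, F (n2 x, n1 y) = -(ε * F (x, y)) := fun x y => by
      rw [c0 (n1 y) (n2 x), c3, c0 x y]
      linear_combination (-ε * F (x, y)) * hη
    have c5 : ∀ x y, F (n3 x, n3 y) = -(ε * F (x, y)) := fun x y => by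
      have h := c3 (s x) (r y)
      rw [R9, R6, c2] at h
      exact h
    rw [hP]
    simp only [hAv, Fin.sum_univ_six, hal, hals, sg, Matrix.cons_val_zero,
      Matrix.cons_val_one, Matrix.cons_val]
    rw [c1, c2, c3, c4, c5, c1, c2, c3, c4, c5, c0 x y]
    linear_combination (1 / 4 : ℂ) * F (x, y) * hη * (1 + ε ^ 2) + (1 / 2 : ℂ) * F (x, y) * hε

/-! ### the maps on `ZMod (3 ^ k)` -/

private lemma u1 (k : ℕ) (x : ZMod (3 ^ k)) : (1 + 3 * x) * (1 + 3 * x)⁻¹ = 1 := by
  apply ZMod.mul_inv_of_unit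
  have h : IsNilpotent (3 * x) := by
    refine ⟨k, ?_⟩
    have h2 : (3 : ZMod (3 ^ k)) ^ k = 0 := by
      exact_mod_cast ZMod.natCast_self (3 ^ k)
    rw [mul_pow, h2, zero_mul]
  exact h.isUnit_one_add

private lemma u2 (k : ℕ) (x : ZMod (3 ^ k)) : (2 + 3 * x) * (2 + 3 * x)⁻¹ = 1 := by
  apply ZMod.mul_inv_of_unit
  have h : IsNilpotent (3 * (-1 - x)) := by
    refine ⟨k, ?_⟩
    have h2 : (3 : ZMod (3 ^ k)) ^ k = 0 := by
      exact_mod_cast ZMod.natCast_self (3 ^ k)
    rw [mul_pow, h2, zero_mul]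
  have h1 : (2 + 3 * x) = -(1 + 3 * (-1 - x)) := by ring
  rw [h1]
  exact h.isUnit_one_add.neg

private lemma cancel {k : ℕ} {a b x y : ZMod (3 ^ k)} (h : a * b = 1) (h1 : x * a = y * a) :
    x = y := by
  linear_combination b * h1 + (y - x) * h

/-- `-x/(1+3x)` -/
private def m2 {M : ℕ} (x : ZMod M) : ZMod M := -x * (1 + 3 * x)⁻¹

/-- `-(1+2x)/(2+3x)` -/
private def m3 {M : ℕ} (x : ZMod M) : ZMod M := -(1 + 2 * x) * (2 + 3 * x)⁻¹

private lemma rr_mul (k : ℕ) (x : ZMod (3 ^ k)) : rr x * (1 + 3 * x) = -(1 + 2 * x) := by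
  unfold rr
  linear_combination -(1 + 2 * x) * u1 k x

private lemma ss_mul (k : ℕ) (x : ZMod (3 ^ k)) : ss x * (2 + 3 * x) = -(1 + x) := by
  unfold ss
  linear_combination -(1 + x) * u2 k x

private lemma m2_mul (k : ℕ) (x : ZMod (3 ^ k)) : m2 x * (1 + 3 * x) = -x := by
  unfold m2
  linear_combination -x * u1 k x

private lemma m3_mul (k : ℕ) (x : ZMod (3 ^ k)) : m3 x * (2 + 3 * x) = -(1 + 2 * x) := by
  unfold m3
  linear_combination -(1 + 2 * x) * u2 k x

private theorem hDimFS3of (hTrq : S3Trq) : DimFS3 := by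
  intro η ε k hη hε hk
  obtain ⟨m, rfl⟩ : ∃ m, k = m + 2 := ⟨k - 2, by omega⟩
  have : NeZero (3 ^ (m + 2)) := ⟨pow_ne_zero _ (by norm_num)⟩
  have h3 : ((3 ^ (m + 2) : ℕ) : ZMod (3 ^ (m + 2))) = 0 := ZMod.natCast_self _
  push_cast at h3
  have hm : m + 2 - 1 = m + 1 := by omega
  set t : ZMod (3 ^ (m + 2)) := 3 ^ (m + 1) with ht
  have h3t : 3 * t = 0 := by rw [ht, ← h3]; ring
  have htt0 : t * t = 0 := by
    have h5 : t * t = 3 * t * 3 ^ m := by rw [ht]; ring
    rw [h5, h3t, zero_mul]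
  have hne : ∀ c : ℕ, 0 < c → c < 3 → (c : ZMod (3 ^ (m + 2))) * t ≠ 0 := by
    intro c hc0 hc3 h
    have h4 : ((c * 3 ^ (m + 1) : ℕ) : ZMod (3 ^ (m + 2))) = 0 := by
      push_cast
      exact h
    rw [ZMod.natCast_eq_zero_iff] at h4
    have h5 := Nat.le_of_dvd (by positivity) h4
    have h6 : c * 3 ^ (m + 1) < 3 ^ (m + 2) := by
      rw [pow_succ 3 (m + 1), mul_comm (3 ^ (m + 1)) 3]
      exact Nat.mul_lt_mul_of_pos_right hc3 (by positivity)
    omega
  have ht0 : t ≠ 0 := by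
    have := hne 1 (by norm_num) (by norm_num)
    rwa [Nat.cast_one, one_mul] at this
  have hu0 : 2 * t ≠ 0 := by
    have := hne 2 (by norm_num) (by norm_num)
    exact_mod_cast this
  have nofix : ∀ (x c : ZMod (3 ^ (m + 2))), rr x + c * t ≠ x := by
    intro x c h
    apply ht0
    have h1 := rr_mul (m + 2) x
    have h2 : rr x = x - c * t := by linear_combination h
    rw [h2] at h1
    linear_combination t * h1 - (x ^ 2 + x - c * t * x) * h3t + c * htt0
  have hη2 : (η : ℂ) ^ 2 = 1 := by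
    rcases hη with rfl | rfl <;> norm_num
  have hε2 : (ε : ℂ) ^ 2 = 1 := by
    rcases hε with rfl | rfl <;> norm_num
  have key := dim_aux (η : ℂ) (ε : ℂ) hη2 hε2 t (2 * t) (by linear_combination h3t) (by ring)
    (by linear_combination h3t) ht0 hu0 rr ss (fun x => -x - 1) m2 m3
    ?_ ?_ ?_ ?_ ?_ ?_ ?_ ?_ ?_ ?_ ?_ ?_ hTrq (antiF3S (m + 2) η ε) (fun F => Iff.rfl)
  · rw [ZMod.card] at key
    rw [hm]
    have h9 : (9 : ℂ) ^ (m + 1) = (3 ^ (m + 1)) ^ 2 := by
      rw [← pow_mul, mul_comm (m + 1) 2, pow_mul]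
      norm_num
    have h7 : (6 : ℂ) * Module.finrank ℂ (antiF3S (m + 2) η ε) =
        2 * (9 : ℂ) ^ (m + 1) + 3 ^ (m + 1) * ((η : ℂ) * (3 - ε)) := by
      have h8 : (((3 ^ (m + 2) : ℕ)) : ℂ) = 3 * (3 : ℂ) ^ (m + 1) := by
        push_cast
        ring
      rw [h8] at key
      rw [h9]
      linear_combination (1 / 9 : ℂ) * key
    exact_mod_cast h7
  · -- `s (r x) = x`
    intro x
    have hr := rr_mul (m + 2) x
    refine cancel (a := 2 + 3 * rr x) (b := -(1 + 3 * x)) ?_ ?_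
    · linear_combination (-3 : ZMod (3 ^ (m + 2))) * hr
    · linear_combination ss_mul (m + 2) (rr x) - hr
  · intro x
    have hs := ss_mul (m + 2) x
    refine cancel (a := 1 + 3 * ss x) (b := -(2 + 3 * x)) ?_ ?_
    · linear_combination (-3 : ZMod (3 ^ (m + 2))) * hs
    · linear_combination rr_mul (m + 2) (ss x) - hs
  · intro x
    have hr := rr_mul (m + 2) x
    have hs := ss_mul (m + 2) x
    have h1 := u1 (m + 2) x
    have h2 := u2 (m + 2) x
    refine cancel (a := 1 + 3 * rr x) (b := -(1 + 3 * x) * (2 + 3 * x)⁻¹) ?_ ?_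
    · linear_combination (-3 * (2 + 3 * x)⁻¹) * hr + h2
    · rw [rr_mul]
      refine cancel (a := (1 + 3 * x) * (2 + 3 * x)) (b := (1 + 3 * x)⁻¹ * (2 + 3 * x)⁻¹) ?_ ?_
      · linear_combination (2 + 3 * x) * (2 + 3 * x)⁻¹ * h1 + h2
      · linear_combination (-2 * (2 + 3 * x) - 3 * (ss x * (2 + 3 * x))) * hr
          + (-(1 + 3 * x) + 3 * (1 + 2 * x)) * hs
  · intro x
    ring
  · intro x
    refine cancel (u1 (m + 2) x) ?_
    linear_combination -rr_mul (m + 2) x - m2_mul (m + 2) x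
  · intro x
    have hr := rr_mul (m + 2) x
    refine cancel (a := (1 + 3 * rr x) * (1 + 3 * x)) (b := -(2 + 3 * x)⁻¹) ?_ ?_
    · linear_combination (-3 * (2 + 3 * x)⁻¹) * hr + u2 (m + 2) x
    · linear_combination (1 + 3 * x) * m2_mul (m + 2) (rr x) - (1 + 3 * m3 x) * hr
        + m3_mul (m + 2) x
  · intro x
    refine cancel (u2 (m + 2) x) ?_
    linear_combination -rr_mul (m + 2) (-x - 1) - m3_mul (m + 2) x
  · intro x
    refine cancel (u1 (m + 2) x) ?_
    linear_combination rr_mul (m + 2) (x + t) - rr_mul (m + 2) x - (rr (x + t) + 1 + x) * h3t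
  · intro x
    linear_combination -h3t
  · intro x h
    exact nofix x 0 (by rw [zero_mul, add_zero]; exact h)
  · intro x h
    exact nofix x 1 (by rw [one_mul]; exact h)
  · intro x h
    exact nofix x 2 h

theorem hDimFS3 : DimFS3 := hDimFS3of Pool.Agent.Helper10.W3.hTrq

end Pool.Agent.Helper67.T3
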